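import Mathlib
import Pool.Agent.Helper76.HM.Construct
import Pool.Agent.Burn.Final

namespace Pool.Agent.Results.MP_adec7c_al.Existence

open Pool.Agent.Helper76.HM

/-- There is a locally compact Hausdorff hereditarily minimal group which is neither discrete nor
compact and has non-trivial center. -/
theorem result :
    ∃ (G : Type) (_ : Group G) (_ : TopologicalSpace G), IsTopologicalGroup G ∧ T2Space G ∧
      LocallyCompactSpace G ∧ HereditarilyMinimal G ∧ ¬ DiscreteTopology G ∧ ¬ CompactSpace G ∧
      Subgroup.center G ≠ ⊥ := by
  obtain ⟨A, _, p, _, d, h1, h2, h3, _, h5⟩ := Burn.limit_group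
  exact construct (p := p) h2 d h1 1 (by simpa using h3) h5

end Pool.Agent.Results.MP_adec7c_al.Existence
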