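import Mathlib
import Pool.Agent.Helper76.HM.Construct

namespace Pool.Agent.Results.MP_adec7c_al.FiniteExponent

open Pool.Agent.Helper76.HM

universe u

/-- First part: a torsion-free Hausdorff topological group with a normal subgroup topologically
isomorphic to `ℤ_p` and quotient of finite exponent is hereditarily minimal. Second part: such a
group, locally compact, neither discrete nor compact and with non-trivial center, exists as soon as
there is a torsion-free abstract group `A` with a central element `d` such that `A / ⟨d⟩` is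
infinite of exponent dividing a power of `p`. -/
theorem result :
    (∀ (G : Type u) [Group G] [TopologicalSpace G] [IsTopologicalGroup G] [T2Space G]
      (p : ℕ) [Fact p.Prime] (K : Subgroup G) [K.Normal],
      Nonempty (K ≃ₜ* Multiplicative ℤ_[p]) →
      (∀ (g : G) (m : ℕ), m ≠ 0 → g ^ m = 1 → g = 1) →
      (∃ n : ℕ, n ≠ 0 ∧ ∀ g : G, g ^ n ∈ K) →
      HereditarilyMinimal G) ∧
    (∀ (A : Type u) [Group A] (p : ℕ) [Fact p.Prime] (s : ℕ) (d : A),
      d ∈ Subgroup.center A →
      (∀ (a : A) (m : ℕ), m ≠ 0 → a ^ m = 1 → a = 1) →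
      (∀ a : A, a ^ (p ^ s) ∈ Subgroup.zpowers d) →
      ¬ (Subgroup.zpowers d).FiniteIndex →
      ∃ (G : Type u) (_ : Group G) (_ : TopologicalSpace G), IsTopologicalGroup G ∧ T2Space G ∧
        LocallyCompactSpace G ∧ HereditarilyMinimal G ∧ ¬ DiscreteTopology G ∧ ¬ CompactSpace G ∧
        Subgroup.center G ≠ ⊥) := by
  constructor
  · intro G _ _ _ _ p _ K _ he htf hexp
    obtain ⟨e⟩ := he
    obtain ⟨n, hn, hexp⟩ := hexp
    exact criterion htf K e n hn hexp
  · intro A _ p _ s d hd htf hexp hinf
    exact construct (p := p) htf d hd s hexp hinf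

end Pool.Agent.Results.MP_adec7c_al.FiniteExponent
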